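import Pool.Agent.Lib.MP_f0c157_lc.GEN.Defs

/-!
# Project GEN (MP_f0c157_lc), row BWD: from a p-optimal proof system relative to a generic oracle to
an unrelativized one
-/

set_option autoImplicit false

namespace Pool.Agent.Lib.MP_f0c157_lc.GEN

open Pool.Agent.PolyTime Pool.Agent.Lib.MP_d5150c_lc Pool.Agent.Lib.MP_f0c157_lc
open Pool.Agent.Lib.RO N487b59b3 N68a2faeb N793a5b8e

namespace BW

theorem ofPO_restr (G : List Bool → Bool) {m : List (List Bool)} {v : List Bool} (hv : v ∈ m) :
    ofPO (restr G m) v = G v := by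
  rw [Bool.eq_iff_iff]
  unfold ofPO restr
  simp only [List.any_eq_true, List.mem_map, Bool.and_eq_true, decide_eq_true_eq]
  constructor
  · rintro ⟨e, ⟨w, hw, rfl⟩, h1, h2⟩
    have h3 : w = v := h1
    subst h3
    exact h2
  · intro h
    exact ⟨(v, G v), ⟨v, hv, rfl⟩, rfl, h⟩

theorem extB_iff (X : List Bool → Bool) (q : PO) : extB X q = true ↔ Ext q X := by
  unfold extB Ext
  simp only [List.all_eq_true, decide_eq_true_eq]

theorem ext_restr {G X : List Bool → Bool} {l : List (List Bool)} :
    Ext (restr G l) X ↔ ∀ v ∈ l, X v = G v := by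
  unfold Ext restr
  simp only [List.mem_map]
  constructor
  · intro h v hv
    exact h (v, G v) ⟨v, hv, rfl⟩
  · rintro h e ⟨w, hw, rfl⟩
    exact h w hw

/-- the oracles relative to which `F` outputs elements of `T` only -/
def CF (T : DecisionProblem) (F : (List Bool → Bool) → List Bool → List Bool) :
    Set (List Bool → Bool) := {X | ∀ w, T (F X w) = true}

/-- the oracles relative to which `F` composed with `H` is `g` -/
def DF (F H : (List Bool → Bool) → List Bool → List Bool) (g : List Bool → List Bool) :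
    Set (List Bool → Bool) := {X | ∀ w, F X (H X w) = g w}

theorem isClosed_CF (hLoc : Loc_stmt) (hClosed : Closed_stmt) (T : DecisionProblem)
    {F : (List Bool → Bool) → List Bool → List Bool} (hF : RelFn F) : IsClosed (CF T F) := by
  refine hClosed (List Bool) (fun X w => T (F X w) = true) fun X w => ?_
  obtain ⟨l, hl⟩ := hLoc _ _ F hF X w
  exact ⟨l, fun X' hX' => by rw [hl X' hX']⟩

theorem isClosed_DF (hLoc : Loc_stmt) (hClosed : Closed_stmt)
    {F H : (List Bool → Bool) → List Bool → List Bool} (hF : RelFn F) (hH : RelFn H)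
    (g : List Bool → List Bool) : IsClosed (DF F H g) := by
  refine hClosed (List Bool) (fun X w => F X (H X w) = g w) fun X w => ?_
  obtain ⟨l1, hl1⟩ := hLoc _ _ H hH X w
  obtain ⟨l2, hl2⟩ := hLoc _ _ F hF X (H X w)
  refine ⟨l1 ++ l2, fun X' hX' => ?_⟩
  rw [hl1 X' fun v hv => hX' v (List.mem_append_left _ hv),
    hl2 X' fun v hv => hX' v (List.mem_append_right _ hv)]

/-- the unrelativized proof system: proofs are pairs of a proof and a finite partial oracle -/
def fb (F : (List Bool → Bool) → List Bool → List Bool) (p : PO) (x0 z : List Bool) : List Bool :=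
  if extB (ofPO (unbits (List Bool × PO) z).2) p = true then
    F (ofPO (unbits (List Bool × PO) z).2) (unbits (List Bool × PO) z).1 else x0

theorem fb_bits (F : (List Bool → Bool) → List Bool → List Bool) (p : PO) (x0 v : List Bool)
    (q : PO) : fb F p x0 (bits (v, q)) = if extB (ofPO q) p = true then F (ofPO q) v else x0 := by
  unfold fb
  rw [unbits_bits]

theorem poly_fb (hPO : PolyPO_stmt) (hExt : RelExt_stmt)
    {F : (List Bool → Bool) → List Bool → List Bool} (hF : RelFn F) (p : PO) (x0 : List Bool) :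
    PolyFn (fb F p x0) := by
  have hU : PolyFn (unbits (List Bool × PO)) := poly_unbits
  refine PolyFn.ite ?_ ?_ (PolyFn.const x0)
  · refine (hExt.2.comp ((PolyFn.snd.comp hU).pair (PolyFn.const p))).of_eq fun z => ?_
    simp
  · exact (hPO _ _ F hF).comp ((PolyFn.snd.comp hU).pair (PolyFn.fst.comp hU))

/-- a polynomial-time function is polynomial-time relative to any oracle -/
theorem rel_of_poly (G : List Bool → Bool) {g : List Bool → List Bool} (hg : IsPolyTime g) :
    IsPolyTimeRel G g := by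
  have h := relConst _ _ _ (isPolyTime_iff.1 hg)
  exact isPolyTimeRel_of_relFn Br.list Br.list h G

theorem coNP_sub (G : List Bool → Bool) {L : DecisionProblem} (hL : L ∈ coNP) :
    L ∈ coNPRel G := by
  obtain ⟨p, R, hR, h⟩ := hL
  have h1 : PolyFn R := (Br.list.pair Br.list).polyFn Br.bool hR
  exact ⟨p, R, isPolyTimeRel_of_relFn (Br.list.pair Br.list) Br.bool (relConst _ _ _ h1) G, h⟩

theorem nonempty_of_complete {T : DecisionProblem} (hT : IsCompleteFor coNP T) :
    ∃ x, T x = true := by
  have h1 : (fun _ => true : DecisionProblem) ∈ coNP := by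
    refine ⟨0, fun _ => false, ?_, fun x => ?_⟩
    · exact (Br.list.pair Br.list).isPolyTime Br.bool (PolyFn.const false)
    · simp
  obtain ⟨f, -, hf⟩ := hT.2 _ h1
  exact ⟨f [], (hf []).symm⟩

end BW

open BW

/-- if a complete language relative to a generic oracle has a p-optimal proof system relative to
the oracle, then `T` has a p-optimal proof system -/
theorem bwd (hLoc : Loc_stmt) (hClosed : Closed_stmt) (hAvoid : Avoid_stmt) (hPO : PolyPO_stmt)
    (hExt : RelExt_stmt) (hDown : DownRel_stmt) (T : DecisionProblem)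
    (hT : IsCompleteFor coNP T) :
    ∀ᶠ G in residual (List Bool → Bool), ∀ U : DecisionProblem,
      (∀ A ∈ coNPRel G, ManyOneReducibleRel G A U) →
        (∃ P, IsPOptimalProofSystemRel G U P) → ∃ P, IsPOptimalProofSystem T P := by
  classical
  set 𝓟 := Protos (List Bool) (List Bool) with h𝓟
  have hcP : 𝓟.Countable := countable_protos _ _
  have hR : ∀ F ∈ 𝓟, RelFn F := fun F hF => relFn_of_protos Br.list Br.list hF
  have hcg : {g : List Bool → List Bool | IsPolyTime g}.Countable := countable_isPolyTime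
  obtain ⟨x0, hx0⟩ := nonempty_of_complete hT
  have h1 := hAvoid (CF T '' 𝓟) (hcP.image _) (by
    rintro C ⟨F, hF, rfl⟩
    exact isClosed_CF hLoc hClosed T (hR F hF))
  have h2 := hAvoid ((fun q : ((List Bool → Bool) → List Bool → List Bool) ×
      ((List Bool → Bool) → List Bool → List Bool) × (List Bool → List Bool) =>
        DF q.1 q.2.1 q.2.2) '' (𝓟 ×ˢ (𝓟 ×ˢ {g : List Bool → List Bool | IsPolyTime g})))
    ((hcP.prod (hcP.prod hcg)).image _) (by
    rintro C ⟨⟨F, H, g⟩, ⟨hF, hH, hg⟩, rfl⟩
    exact isClosed_DF hLoc hClosed (hR F hF) (hR H hH) g)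
  filter_upwards [h1, h2] with G hG1 hG2 U hU hP
  obtain ⟨P, ⟨hPp, hPs⟩, hopt⟩ := hDown G T U (hU T (coNP_sub G hT.1)) ⟨x0, hx0⟩ hP
  obtain ⟨F, hF, hFG⟩ := exists_protos hPp
  subst hFG
  have hFr : RelFn F := hR F hF
  obtain ⟨l, hl⟩ := hG1 (CF T F) ⟨F, hF, rfl⟩ fun w => (hPs _).2 ⟨w, rfl⟩
  have hsound : ∀ q : PO, extB (ofPO q) (restr G l) = true → ∀ v, T (F (ofPO q) v) = true :=
    fun q hq v => hl (ofPO q) (ext_restr.1 ((extB_iff _ _).1 hq)) v
  have hagree : ∀ m : List (List Bool), (∀ v ∈ l, v ∈ m) →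
      extB (ofPO (restr G m)) (restr G l) = true := by
    intro m hm
    rw [extB_iff, ext_restr]
    exact fun v hv => ofPO_restr G (hm v hv)
  refine ⟨fb F (restr G l) x0, ⟨isPolyTime_iff.2 (poly_fb hPO hExt hFr _ _), fun y => ?_⟩, ?_⟩
  · constructor
    · intro hy
      obtain ⟨v, hv⟩ := (hPs y).1 hy
      obtain ⟨l', hl'⟩ := hLoc _ _ F hFr G v
      refine ⟨bits (v, restr G (l ++ l')), ?_⟩
      rw [fb_bits, if_pos (hagree _ fun v hv => List.mem_append_left _ hv),
        hl' _ fun v hv => ofPO_restr G (List.mem_append_right _ hv), hv]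
    · rintro ⟨z, rfl⟩
      unfold fb
      split_ifs with h
      · exact hsound _ h _
      · exact hx0
  · rintro g ⟨hgp, hgs⟩
    obtain ⟨h, hh, hhg⟩ := hopt g ⟨rel_of_poly G hgp, hgs⟩
    obtain ⟨H, hH, hHG⟩ := exists_protos hh
    subst hHG
    obtain ⟨l2, hl2⟩ := hG2 (DF F H g) ⟨(F, H, g), ⟨hF, hH, hgp⟩, rfl⟩ hhg
    have hHr : RelFn H := hR H hH
    have hq : PolyFn (fun w : List Bool => bits (H (ofPO (restr G (l ++ l2))) w,
        restr G (l ++ l2))) := by
      refine poly_bits (PolyFn.pair ?_ (PolyFn.const _))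
      exact (hPO _ _ H hHr).comp ((PolyFn.const (restr G (l ++ l2))).pair PolyFn.id)
    refine ⟨_, isPolyTime_iff.2 hq, fun w => ?_⟩
    rw [fb_bits, if_pos (hagree _ fun v hv => List.mem_append_left _ hv)]
    exact hl2 _ (fun v hv => ofPO_restr G (List.mem_append_right _ hv)) w

end Pool.Agent.Lib.MP_f0c157_lc.GEN
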