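import Pool.Agent.Lib.MP_f0c157_lc.GEN.Down

/-!
# Project GEN, row FWD: from a p-optimal proof system to one relative to a generic oracle
-/

set_option autoImplicit false

namespace Pool.Agent.Lib.MP_f0c157_lc.GEN

open Pool.Agent.PolyTime Pool.Agent.Lib.MP_d5150c_lc Pool.Agent.Lib.MP_f0c157_lc
open Pool.Agent.Lib.RO N487b59b3 N68a2faeb N793a5b8e

/-- the oracles for which all values of `g` are in the language given by the verifier `V` -/
def sndSet (V : (List Bool → Bool) → List Bool × List Bool → Bool) (p : Polynomial ℕ)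
    (g : (List Bool → Bool) → List Bool → List Bool) : Set (List Bool → Bool) :=
  {X | ∀ i : List Bool × List Bool, i.2.length ≤ p.eval (g X i.1).length →
    V X (g X i.1, i.2) = false}

/-- row FWD -/
def Fwd_stmt : Prop := ∀ T : DecisionProblem, IsCompleteFor coNP T →
  ∀ᶠ G in residual (List Bool → Bool),
    (∃ P, IsPOptimalProofSystem T P) → ∀ L ∈ coNPRel G, (∃ x, L x = true) →
      ∃ P, IsPOptimalProofSystemRel G L P

namespace FW

theorem ext_append {q q' : PO} {X : List Bool → Bool} :
    Ext (q ++ q') X ↔ Ext q X ∧ Ext q' X := by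
  unfold Ext
  constructor
  · intro h
    exact ⟨fun e he => h e (List.mem_append_left _ he), fun e he => h e (List.mem_append_right _ he)⟩
  · rintro ⟨h1, h2⟩ e he
    rcases List.mem_append.1 he with h | h
    · exact h1 e h
    · exact h2 e h

theorem ext_restr {G X : List Bool → Bool} {l : List (List Bool)} :
    Ext (restr G l) X ↔ ∀ v ∈ l, X v = G v := by
  unfold Ext restr
  constructor
  · intro h v hv
    exact h (v, G v) (List.mem_map.2 ⟨v, hv, rfl⟩)
  · intro h e he
    obtain ⟨v, hv, rfl⟩ := List.mem_map.1 he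
    exact h v hv

theorem extB_iff {X : List Bool → Bool} {q : PO} : extB X q = true ↔ Ext q X := by
  unfold extB Ext
  rw [List.all_eq_true]
  constructor
  · intro h e he
    exact of_decide_eq_true (h e he)
  · intro h e he
    exact decide_eq_true (h e he)

/-- the oracle of a consistent partial oracle extends it -/
theorem ext_ofPO {G : List Bool → Bool} {q : PO} (h : Ext q G) : Ext q (ofPO q) := by
  intro e he
  unfold ofPO
  cases h2 : e.2
  · rw [List.any_eq_false]
    intro e' he'
    rw [Bool.and_eq_true, decide_eq_true_iff]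
    rintro ⟨h3, h4⟩
    have h5 := h e he
    have h6 := h e' he'
    rw [h3, h5, h2, h4] at h6
    exact Bool.false_ne_true h6
  · rw [List.any_eq_true]
    exact ⟨e, he, by rw [Bool.and_eq_true, decide_eq_true_iff]; exact ⟨rfl, h2⟩⟩

theorem hat_iff {V : (List Bool → Bool) → List Bool × List Bool → Bool} {p : Polynomial ℕ}
    {z : List Bool} : Hat V p z = true ↔ ∀ X : List Bool → Bool,
      Ext (unbits (List Bool × PO) z).2 X →
      ∀ u : List Bool, u.length ≤ p.eval (unbits (List Bool × PO) z).1.length →
        V X ((unbits (List Bool × PO) z).1, u) = false := by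
  unfold Hat
  simp only [decide_eq_true_eq]

theorem hat_bits {V : (List Bool → Bool) → List Bool × List Bool → Bool} {p : Polynomial ℕ}
    {x : List Bool} {q : PO} : Hat V p (bits (x, q)) = true ↔ ∀ X : List Bool → Bool,
      Ext q X → ∀ u : List Bool, u.length ≤ p.eval x.length → V X (x, u) = false := by
  rw [hat_iff, unbits_bits]

/-- every element of the language has a finite reason -/
theorem exists_hat (hLoc : Loc_stmt) {G : List Bool → Bool}
    {V : (List Bool → Bool) → List Bool × List Bool → Bool} {p : Polynomial ℕ} (hV : RelFn V)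
    {x : List Bool} (hx : ∀ u : List Bool, u.length ≤ p.eval x.length → V G (x, u) = false) :
    ∃ q : PO, Ext q G ∧ Hat V p (bits (x, q)) = true := by
  choose f hf using fun u : List Bool => hLoc _ _ V hV G (x, u)
  set l : List (List Bool) :=
    (List.finite_length_le Bool (p.eval x.length)).toFinset.toList.flatMap f with hl
  refine ⟨restr G l, ext_restr.2 fun v _ => rfl, hat_bits.2 fun X hX u hu => ?_⟩
  rw [ext_restr] at hX
  rw [← hx u hu]
  refine hf u X fun v hv => hX v ?_
  rw [hl, List.mem_flatMap]
  exact ⟨u, by rw [Finset.mem_toList, Set.Finite.mem_toFinset]; exact hu, hv⟩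

/-- the proof system relative to an oracle -/
def fg (P : List Bool → List Bool) (x0 : List Bool) (X : List Bool → Bool) (v : List Bool) :
    List Bool :=
  if extB X (unbits (List Bool × PO) (P v)).2 = true then (unbits (List Bool × PO) (P v)).1
  else x0

theorem relFn_fg (hExt : RelExt_stmt) {P : List Bool → List Bool} (hP : PolyFn P)
    (x0 : List Bool) : RelFn (fg P x0) := by
  have hU : PolyFn (fun v : List Bool => unbits (List Bool × PO) (P v)) := poly_unbits.comp hP
  have h1 : RelFn (fun (X : List Bool → Bool) (v : List Bool) =>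
      extB X (unbits (List Bool × PO) (P v)).2) :=
    relComp _ _ _ _ _ hExt.1 (relConst _ _ _ (PolyFn.snd.comp hU))
  have h2 : RelFn (fun (X : List Bool → Bool) (v : List Bool) =>
      (extB X (unbits (List Bool × PO) (P v)).2, (unbits (List Bool × PO) (P v)).1)) :=
    relPair _ _ _ _ _ h1 (relConst _ _ _ (PolyFn.fst.comp hU))
  have h3 : PolyFn (fun c : Bool × List Bool => if c.1 = true then c.2 else x0) := by
    refine PolyFn.ite ?_ PolyFn.snd (PolyFn.const x0)
    exact (PolyFn.fst).of_eq fun v => by simp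
  have h4 := relComp _ _ _ _ _ (relConst _ _ _ h3) h2
  exact h4

/-- an oracle function turned into a function whose values are in the language `Hat` -/
def gp (g : (List Bool → Bool) → List Bool → List Bool) (rc : (List Bool → Bool) → List Bool → PO)
    (p0 : PO) (z0 y : List Bool) : List Bool :=
  if (rc (ofPO ((unbits (List Bool × PO) y).2 ++ p0)) (unbits (List Bool × PO) y).1).all
      (fun e => ((unbits (List Bool × PO) y).2 ++ p0).any fun e' => decide (e' = e)) = true then
    bits (g (ofPO ((unbits (List Bool × PO) y).2 ++ p0)) (unbits (List Bool × PO) y).1,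
      (unbits (List Bool × PO) y).2 ++ p0) else z0

theorem polyFn_gp (hPO : PolyPO_stmt) {g : (List Bool → Bool) → List Bool → List Bool}
    {rc : (List Bool → Bool) → List Bool → PO} (hg : RelFn g) (hr : RelFn rc) (p0 : PO)
    (z0 : List Bool) : PolyFn (gp g rc p0 z0) := by
  have hU : PolyFn (unbits (List Bool × PO)) := poly_unbits
  have h1 : PolyFn (fun y : List Bool => (unbits (List Bool × PO) y).2 ++ p0) :=
    PolyFn.append (PolyFn.snd.comp hU) (PolyFn.const p0)
  have h2 : PolyFn (fun y : List Bool => (unbits (List Bool × PO) y).1) := PolyFn.fst.comp hU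
  have h3 : PolyFn (fun y : List Bool =>
      g (ofPO ((unbits (List Bool × PO) y).2 ++ p0)) (unbits (List Bool × PO) y).1) :=
    (hPO _ _ _ hg).comp (h1.pair h2)
  have h4 : PolyFn (fun y : List Bool =>
      rc (ofPO ((unbits (List Bool × PO) y).2 ++ p0)) (unbits (List Bool × PO) y).1) :=
    (hPO _ _ _ hr).comp (h1.pair h2)
  refine PolyFn.ite ?_ (poly_bits (h3.pair h1)) (PolyFn.const z0)
  have h5 : PolyFn (fun y : List Bool =>
      (rc (ofPO ((unbits (List Bool × PO) y).2 ++ p0)) (unbits (List Bool × PO) y).1).all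
      (fun e => ((unbits (List Bool × PO) y).2 ++ p0).any fun e' => decide (e' = e))) := by
    refine PolyFn.all (p := fun (y : List Bool) (e : List Bool × Bool) =>
      ((unbits (List Bool × PO) y).2 ++ p0).any fun e' => decide (e' = e)) ?_ h4
    refine PolyFn.any (p := fun (c : List Bool × (List Bool × Bool)) (e' : List Bool × Bool) =>
      decide (e' = c.2)) ?_ (h1.comp PolyFn.fst)
    exact PolyFn.decide_eq PolyFn.snd (PolyFn.snd.comp PolyFn.fst)
  exact h5.of_eq fun y => by simp

theorem isClosed_sndSet (hLoc : Loc_stmt) (hClosed : Closed_stmt)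
    {V : (List Bool → Bool) → List Bool × List Bool → Bool} {p : Polynomial ℕ}
    {g : (List Bool → Bool) → List Bool → List Bool} (hV : RelFn V) (hg : RelFn g) :
    IsClosed (sndSet V p g) := by
  refine hClosed (List Bool × List Bool) (fun X i => i.2.length ≤ p.eval (g X i.1).length →
    V X (g X i.1, i.2) = false) fun X i => ?_
  obtain ⟨l1, h1⟩ := hLoc _ _ g hg X i.1
  obtain ⟨l2, h2⟩ := hLoc _ _ V hV X (g X i.1, i.2)
  refine ⟨l1 ++ l2, fun X' hX' => ?_⟩
  have e1 := h1 X' fun v hv => hX' v (List.mem_append_left _ hv)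
  have e2 := h2 X' fun v hv => hX' v (List.mem_append_right _ hv)
  rw [e1, e2]

theorem core (hLoc : Loc_stmt) (hPO : PolyPO_stmt) (hExt : RelExt_stmt) (hRec : Record_stmt)
    {G : List Bool → Bool} {V : (List Bool → Bool) → List Bool × List Bool → Bool}
    {p : Polynomial ℕ} (hV : RelFn V) {L : DecisionProblem}
    (hL : ∀ x, L x = true ↔ ∀ u : List Bool, u.length ≤ p.eval x.length → V G (x, u) = false)
    {x0 : List Bool} (hx0 : L x0 = true) {P : List Bool → List Bool}
    (hP : IsPOptimalProofSystem (Hat V p) P)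
    (hav : ∀ g ∈ Protos (List Bool) (List Bool), G ∈ sndSet V p g →
      ∃ l : List (List Bool), ∀ X : List Bool → Bool, (∀ v ∈ l, X v = G v) →
        X ∈ sndSet V p g) :
    ∃ P, IsPOptimalProofSystemRel G L P := by
  obtain ⟨⟨hPp, hPs⟩, hopt⟩ := hP
  have hPF : PolyFn P := isPolyTime_iff.1 hPp
  refine ⟨fg P x0 G, ⟨isPolyTimeRel_of_relFn Br.list Br.list (relFn_fg hExt hPF x0) G, ?_⟩, ?_⟩
  · -- the range
    intro y
    constructor
    · intro hy
      obtain ⟨q, hq, hh⟩ := exists_hat hLoc hV ((hL y).1 hy)
      obtain ⟨v, hv⟩ := (hPs _).1 hh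
      refine ⟨v, ?_⟩
      unfold fg
      rw [hv, unbits_bits, if_pos (extB_iff.2 hq)]
    · rintro ⟨v, rfl⟩
      unfold fg
      split_ifs with h
      · rw [hL]
        exact hat_iff.1 ((hPs (P v)).2 ⟨v, rfl⟩) G (extB_iff.1 h)
      · exact hx0
  · -- p-optimality
    rintro Q ⟨hQp, hQs⟩
    obtain ⟨g, hgP, hgG⟩ := exists_protos hQp
    have hg : RelFn g := relFn_of_protos Br.list Br.list hgP
    have hmem : G ∈ sndSet V p g := by
      rintro ⟨w, u⟩ hu
      rw [hgG] at hu ⊢
      exact (hL (Q w)).1 ((hQs _).2 ⟨w, rfl⟩) u hu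
    obtain ⟨l, hl⟩ := hav g hgP hmem
    obtain ⟨rc, hrc, hrcX, hrcF, -⟩ := hRec _ _ g hg
    obtain ⟨rc', hrc', hrcX', hrcF', -⟩ := hRec _ _ _ (relPair _ _ _ _ _ hg hrc)
    obtain ⟨q0, -, hz0⟩ := exists_hat hLoc hV ((hL x0).1 hx0)
    set p0 : PO := restr G l with hp0
    set z0 : List Bool := bits (x0, q0) with hz0'
    have hp0G : Ext p0 G := ext_restr.2 fun v _ => rfl
    -- soundness of the derived function
    have hgp : ∀ y, Hat V p (gp g rc p0 z0 y) = true := by
      intro y
      unfold gp
      split_ifs with hc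
      · rw [hat_bits]
        intro X hX u hu
        rw [List.all_eq_true] at hc
        have h1 : Ext (rc (ofPO ((unbits (List Bool × PO) y).2 ++ p0))
            (unbits (List Bool × PO) y).1) X := by
          intro e he
          have h2 := hc e he
          rw [List.any_eq_true] at h2
          obtain ⟨e', he', h3⟩ := h2
          have h4 : e' = e := of_decide_eq_true h3
          rw [← h4]
          exact hX e' he'
        have h2 := hrcF _ X _ h1
        have h3 : X ∈ sndSet V p g := hl X (ext_restr.1 (ext_append.1 hX).2)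
        have h4 := h3 ((unbits (List Bool × PO) y).1, u)
        simp only [h2] at h4
        exact h4 hu
      · exact hz0
    have hqb : IsProofSystem (Hat V p) (DN.qb P (gp g rc p0 z0) (fun w => w)) := by
      have ht : PolyFn (fun v : List Bool => v.tail) := PolyFn.tail PolyFn.id
      refine ⟨isPolyTime_iff.2 ?_, fun y => ⟨fun hy => ?_, ?_⟩⟩
      · refine PolyFn.ite ?_ (hPF.comp ht) ((polyFn_gp hPO hg hrc p0 z0).comp ht)
        refine (PolyFn.headD (l := fun v : List Bool => v) (d := fun _ => false) PolyFn.id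
          (PolyFn.const false)).of_eq fun v => ?_
        simp
      · obtain ⟨v, hv⟩ := (hPs _).1 hy
        exact ⟨true :: v, hv⟩
      · rintro ⟨v, rfl⟩
        unfold DN.qb
        split_ifs with h
        · exact (hPs _).2 ⟨_, rfl⟩
        · exact hgp _
    obtain ⟨h, hhp, hh⟩ := hopt _ hqb
    have hhF : PolyFn h := isPolyTime_iff.1 hhp
    refine ⟨fun w => h (false :: bits (w, rc G w ++ rc' G w)), ?_, fun w => ?_⟩
    · have h1 : RelFn (fun (X : List Bool → Bool) (w : List Bool) => (w, (rc X w, rc' X w))) :=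
        relPair _ _ _ _ _ (relConst _ _ _ PolyFn.id) (relPair _ _ _ _ _ hrc hrc')
      have h2 : PolyFn (fun c : List Bool × (PO × PO) =>
          h (false :: bits (c.1, c.2.1 ++ c.2.2))) :=
        hhF.comp (PolyFn.cons (PolyFn.const false) (poly_bits (PolyFn.fst.pair
          (PolyFn.append (PolyFn.fst.comp PolyFn.snd) (PolyFn.snd.comp PolyFn.snd)))))
      exact isPolyTimeRel_of_relFn Br.list Br.list
        (relComp _ _ _ _ _ (relConst _ _ _ h2) h1) G
    · set q : PO := rc G w ++ rc' G w with hq
      have hqG : Ext (q ++ p0) G :=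
        ext_append.2 ⟨ext_append.2 ⟨hrcX G w, hrcX' G w⟩, hp0G⟩
      have hX0 : Ext (q ++ p0) (ofPO (q ++ p0)) := ext_ofPO hqG
      have h1 := hrcF' G (ofPO (q ++ p0)) w (ext_append.1 (ext_append.1 hX0).1).2
      have h2 : g (ofPO (q ++ p0)) w = g G w := congrArg Prod.fst h1
      have h3 : rc (ofPO (q ++ p0)) w = rc G w := congrArg Prod.snd h1
      have h4 : P (h (false :: bits (w, q))) = bits (g G w, q ++ p0) := by
        rw [hh]
        show gp g rc p0 z0 (bits (w, q)) = _
        unfold gp
        rw [unbits_bits]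
        rw [if_pos, h2]
        rw [List.all_eq_true]
        intro e he
        rw [h3] at he
        rw [List.any_eq_true]
        exact ⟨e, List.mem_append_left _ (List.mem_append_left _ he), decide_eq_true rfl⟩
      show fg P x0 G (h (false :: bits (w, q))) = Q w
      unfold fg
      rw [h4, unbits_bits, if_pos (extB_iff.2 hqG), hgG]

end FW

open FW

theorem fwd (hLoc : Loc_stmt) (hClosed : Closed_stmt) (hAvoid : Avoid_stmt) (hPO : PolyPO_stmt)
    (hExt : RelExt_stmt) (hRec : Record_stmt) (hHat : Hat_stmt) : Fwd_stmt := by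
  intro T hT
  have hcp := countable_polynomial'
  set S : Set (Set (List Bool → Bool)) :=
    (fun t : ((List Bool → Bool) → List Bool × List Bool → Bool) × Polynomial ℕ ×
      ((List Bool → Bool) → List Bool → List Bool) => sndSet t.1 t.2.1 t.2.2) ''
      (Protos (List Bool × List Bool) Bool ×ˢ
        ((Set.univ : Set (Polynomial ℕ)) ×ˢ Protos (List Bool) (List Bool))) with hS
  have hSc : S.Countable :=
    ((countable_protos _ _).prod (Set.countable_univ.prod (countable_protos _ _))).image _
  have hScl : ∀ C ∈ S, IsClosed C := by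
    rintro C ⟨⟨V, p, g⟩, ⟨hV, -, hg⟩, rfl⟩
    exact isClosed_sndSet hLoc hClosed
      (relFn_of_protos (Br.list.pair Br.list) Br.bool hV) (relFn_of_protos Br.list Br.list hg)
  filter_upwards [hAvoid S hSc hScl] with G hG
  rintro hP L ⟨p, V0, hV0, hV0L⟩ ⟨x0, hx0⟩
  obtain ⟨V, hV, hVG⟩ := exists_protos hV0
  have hVF : RelFn V := relFn_of_protos (Br.list.pair Br.list) Br.bool hV
  have hL : ∀ x, L x = true ↔
      ∀ u : List Bool, u.length ≤ p.eval x.length → V G (x, u) = false := by
    intro x
    have h1 := hV0L x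
    have h2 : Lᶜ x = !(L x) := rfl
    rw [h2] at h1
    rw [hVG]
    constructor
    · intro hx u hu
      rw [Bool.eq_false_iff]
      intro hcon
      have h3 := h1.2 ⟨u, hu, hcon⟩
      rw [hx] at h3
      exact Bool.false_ne_true h3
    · intro hu
      by_contra hcon
      rw [Bool.not_eq_true] at hcon
      rw [hcon] at h1
      obtain ⟨w, hw, hw2⟩ := h1.1 rfl
      rw [hu w hw] at hw2
      exact Bool.false_ne_true hw2
  obtain ⟨q0, -, hz0⟩ := exists_hat hLoc hVF ((hL x0).1 hx0)
  obtain ⟨PK, hPK⟩ := down (Hat V p) T (hT.2 _ (hHat V p hVF)) ⟨_, hz0⟩ hP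
  exact core hLoc hPO hExt hRec hVF hL hx0 hPK fun g hg hGg =>
    hG _ ⟨(V, p, g), ⟨hV, Set.mem_univ _, hg⟩, rfl⟩ hGg

end Pool.Agent.Lib.MP_f0c157_lc.GEN
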