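import Pool.Agent.Lib.MP_f0c157_lc.GEN.Ppo

/-!
# Project GEN, row HAT: the language `Hat V p` is in coNP
-/

set_option autoImplicit false

namespace Pool.Agent.Lib.MP_f0c157_lc.GEN

open Pool.Agent.PolyTime Pool.Agent.Lib.MP_d5150c_lc Pool.Agent.Lib.MP_f0c157_lc
open Pool.Agent.Lib.RO N487b59b3 N68a2faeb N793a5b8e

/-- the oracle of the positive entries of a consistent partial oracle extends it -/
theorem ext_ofPO {r : PO} {X : List Bool → Bool} (h : Ext r X) : Ext r (ofPO r) := by
  intro e he
  unfold ofPO
  rcases hb : e.2 with _ | _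
  · rw [List.any_eq_false]
    intro e' he'
    simp only [Bool.and_eq_true, decide_eq_true_eq, not_and, Bool.not_eq_true]
    intro h1
    rw [← h e' he', h1, h e he, hb]
  · rw [List.any_eq_true]
    exact ⟨e, he, by simp [hb]⟩

theorem Ext.append {q r : PO} {X : List Bool → Bool} (h1 : Ext q X) (h2 : Ext r X) :
    Ext (q ++ r) X := by
  intro e he
  rcases List.mem_append.1 he with h | h
  · exact h1 e h
  · exact h2 e h

theorem Ext.left {q r : PO} {X : List Bool → Bool} (h : Ext (q ++ r) X) : Ext q X :=
  fun e he => h e (List.mem_append_left _ he)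

theorem Ext.right {q r : PO} {X : List Bool → Bool} (h : Ext (q ++ r) X) : Ext r X :=
  fun e he => h e (List.mem_append_right _ he)

/-- the verifier for the complement of `Hat V p` -/
def hatR (V : (List Bool → Bool) → List Bool × List Bool → Bool) (p : Polynomial ℕ)
    (c : List Bool × List Bool) : Bool :=
  decide ((unbits (List Bool × PO) c.2).1.length ≤
    p.eval (unbits (List Bool × PO) c.1).1.length) &&
  (extB (ofPO (unbits (List Bool × PO) c.2).2) (unbits (List Bool × PO) c.1).2 &&
    V (ofPO (unbits (List Bool × PO) c.2).2)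
      ((unbits (List Bool × PO) c.1).1, (unbits (List Bool × PO) c.2).1))

theorem poly_hatR {V : (List Bool → Bool) → List Bool × List Bool → Bool} (p : Polynomial ℕ)
    (hV : RelFn V) : PolyFn (hatR V p) := by
  have hz : PolyFn (fun c : List Bool × List Bool => unbits (List Bool × PO) c.1) :=
    poly_unbits.comp PolyFn.fst
  have hw : PolyFn (fun c : List Bool × List Bool => unbits (List Bool × PO) c.2) :=
    poly_unbits.comp PolyFn.snd
  have hx := PolyFn.fst.comp hz
  have hq := PolyFn.snd.comp hz
  have hu := PolyFn.fst.comp hw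
  have hr := PolyFn.snd.comp hw
  refine PolyFn.and (PolyFn.decide_le (PolyFn.length hu) (poly_eval p (PolyFn.length hx))) ?_
  refine PolyFn.and (relExt.2.comp (hr.pair hq)) ?_
  exact (polyPO _ _ V hV).comp (hr.pair (hx.pair hu))

theorem pb_eval (p : Polynomial ℕ) : ∃ e : ℕ → ℕ, PB e ∧ ∀ n, p.eval n ≤ e n := by
  obtain ⟨g, hg, hgs⟩ := (poly_eval p (PolyFn.id (α := ℕ))).size_le
  refine ⟨fun n => g (2 * n + 1), hg.comp (((PB.const 2).mul PB.id).add (PB.const 1)), ?_⟩
  intro n
  have h := hgs n
  rw [size_nat, size_nat] at h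
  beta_reduce
  omega

theorem hat : Hat_stmt := by
  classical
  intro V p hV
  obtain ⟨rec, -, hrec1, hrec2, b, hb, hbs⟩ := record _ _ V hV
  obtain ⟨d, hd, hds⟩ := (poly_unbits (α := List Bool × PO)).size_le
  obtain ⟨e, he, hes⟩ := pb_eval p
  have hB : PB (fun n => (4 * e (d n) + 1) + (d n + b (d n + (4 * e (d n) + 1) + 1)) + 1) := by
    have h1 : PB (fun n => 4 * e (d n) + 1) := ((PB.const 4).mul (he.comp hd)).add (PB.const 1)
    exact (h1.add (hd.add (hb.comp ((hd.add h1).add (PB.const 1))))).add (PB.const 1)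
  obtain ⟨P, hP⟩ := hB.2
  show (Hat V p)ᶜ ∈ NP
  refine ⟨P.comp (4 * Polynomial.X + 1), hatR V p, isPolyTime_of_polyFn (poly_hatR p hV), ?_⟩
  intro z
  have h1 : ((Hat V p)ᶜ z = true) ↔ ∃ X : List Bool → Bool,
      Ext (unbits (List Bool × PO) z).2 X ∧ ∃ u : List Bool,
        u.length ≤ p.eval (unbits (List Bool × PO) z).1.length ∧
          V X ((unbits (List Bool × PO) z).1, u) = true := by
    show ((!(Hat V p z)) = true) ↔ _
    unfold Hat
    rw [Bool.not_eq_true', decide_eq_false_iff_not]
    push_neg
    simp only [ne_eq, Bool.not_eq_false]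
  rw [h1]
  constructor
  · rintro ⟨X, hX, u, hu, hVX⟩
    set x := (unbits (List Bool × PO) z).1 with hx
    set q := (unbits (List Bool × PO) z).2 with hq
    have hr : Ext (q ++ rec X (x, u)) X := hX.append (hrec1 _ _)
    have hr' := ext_ofPO hr
    refine ⟨bits (u, q ++ rec X (x, u)), ?_, ?_⟩
    · rw [bits_length, size_prod]
      have hD := hds z
      have e1 : size (unbits (List Bool × PO) z) = size x + size q + 1 := size_prod _ _
      have hxD : size x + size q + 1 ≤ d (size z) := by rw [← e1]; exact hD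
      have e2 := length_le_size x
      have e3 : u.length ≤ e (d (size z)) :=
        hu.trans ((hes _).trans (he.mono (by omega)))
      have e4 := Pool.Agent.Lib.MP_f0c157_lc.size_bits_le u
      have e5 := size_append q (rec X (x, u))
      have e6 := hbs X (x, u)
      have e7 : size (x, u) ≤ d (size z) + (4 * e (d (size z)) + 1) + 1 := by
        rw [size_prod]
        omega
      have e8 := hb.mono e7
      have e9 : size z ≤ 4 * z.length + 1 := Pool.Agent.Lib.MP_f0c157_lc.size_bits_le _
      have e10 := (hB.mono e9).trans (hP _)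
      rw [Polynomial.eval_comp]
      simp only [Polynomial.eval_add, Polynomial.eval_mul, Polynomial.eval_X,
        Polynomial.eval_one, Polynomial.eval_ofNat]
      have e11 : (4 * e (d (size z)) + 1) +
          (d (size z) + b (d (size z) + (4 * e (d (size z)) + 1) + 1)) + 1 ≤
          P.eval (4 * z.length + 1) := e10
      omega
    · unfold hatR
      rw [unbits_bits]
      simp only [Bool.and_eq_true, decide_eq_true_eq]
      refine ⟨hu, extB_iff.2 hr'.left, ?_⟩
      rw [hrec2 X _ (x, u) hr'.right]
      exact hVX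
  · rintro ⟨w, -, hw⟩
    unfold hatR at hw
    simp only [Bool.and_eq_true, decide_eq_true_eq] at hw
    exact ⟨ofPO (unbits (List Bool × PO) w).2, extB_iff.1 hw.2.1, _, hw.1, hw.2.2⟩

end Pool.Agent.Lib.MP_f0c157_lc.GEN
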