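import Pool.Agent.Lib.MP_f0c157_lc.GEN.Top
import Pool.Agent.Lib.MP_f0c157_lc.GEN.Hat
import Pool.Agent.Lib.MP_f0c157_lc.GEN.Fwd
import Pool.Agent.Lib.MP_f0c157_lc.GEN.Bwd

/-!
# Project GEN: the main theorem
-/

set_option autoImplicit false

namespace Pool.Agent.Lib.MP_f0c157_lc.GEN

open Pool.Agent.PolyTime Pool.Agent.Lib.MP_d5150c_lc Pool.Agent.Lib.MP_f0c157_lc
open Pool.Agent.Lib.RO N487b59b3 N68a2faeb N793a5b8e

theorem main : Main_stmt := by
  intro T hT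
  filter_upwards [fwd loc closed avoid polyPO relExt record hat T hT,
    bwd loc closed avoid polyPO relExt downRel T hT] with G h1 h2
  exact ⟨h1, h2⟩

/-- relative to every oracle there is a complete language for coNP -/
def Cmp_stmt : Prop := ∀ G : List Bool → Bool, ∃ U ∈ coNPRel G, (∃ x, U x = true) ∧
  ∀ A ∈ coNPRel G, ManyOneReducibleRel G A U

theorem main_iff (hcmp : Cmp_stmt) : ∀ T : DecisionProblem, IsCompleteFor coNP T →
    ∀ᶠ G in residual (List Bool → Bool),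
      ((∃ P, IsPOptimalProofSystem T P) ↔ ∀ L ∈ coNPRel G, (∃ x, L x = true) →
        ∃ P, IsPOptimalProofSystemRel G L P) ∧
      ((∃ P, IsPOptimalProofSystem T P) ↔ ∃ U : DecisionProblem,
        (∀ A ∈ coNPRel G, ManyOneReducibleRel G A U) ∧
          ∃ P, IsPOptimalProofSystemRel G U P) := by
  intro T hT
  filter_upwards [main T hT] with G hG
  obtain ⟨h1, h2⟩ := hG
  obtain ⟨U, hU, hUne, hUh⟩ := hcmp G
  exact ⟨⟨h1, fun h => h2 U hUh (h U hU hUne)⟩,
    ⟨fun h => ⟨U, hUh, h1 h U hU hUne⟩, fun ⟨U', hU', h⟩ => h2 U' hU' h⟩⟩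

end Pool.Agent.Lib.MP_f0c157_lc.GEN
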