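import Pool.Agent.Lib.MP_f0c157_lc.GEN.Defs

/-!
# Project GEN (MP_f0c157_lc), row CMP: coNP relative to any oracle has complete languages
-/

set_option autoImplicit false

namespace Pool.Agent.Lib.MP_f0c157_lc.GEN

open Pool.Agent.PolyTime Pool.Agent.Lib.MP_d5150c_lc Pool.Agent.Lib.MP_f0c157_lc
open Pool.Agent.Lib.RO N487b59b3 N68a2faeb N793a5b8e

namespace CM

/-- instances: codes of the two parts of a protocol, the input, the number of queries, the bound on
the length of the witnesses, the clock -/
abbrev Ins : Type := (Prog × Prog) × List Bool × ℕ × ℕ × ℕ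

/-- the number of queries -/
def nq (c : List Bool × List Bool) : ℕ := (unbits Ins c.1).2.2.1

/-- the universal query function -/
def qu (c : (List Bool × List Bool) × List Bool) : List Bool :=
  runT (unbits Ins c.1.1).1.1 (bits (((unbits Ins c.1.1).2.1, c.1.2), c.2))
    (unbits Ins c.1.1).2.2.2.2

/-- the universal output function -/
def ou (c : (List Bool × List Bool) × List Bool) : Bool :=
  decide (c.1.2.length ≤ (unbits Ins c.1.1).2.2.2.1) &&
    (runT (unbits Ins c.1.1).1.2 (bits (((unbits Ins c.1.1).2.1, c.1.2), c.2))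
      (unbits Ins c.1.1).2.2.2.2).headD false

/-- the universal verifier -/
def W (X : List Bool → Bool) (c : List Bool × List Bool) : Bool :=
  ou (c, answers qu X c (nq c))

theorem poly_ins : PolyFn (unbits Ins) := poly_unbits

theorem relFn_W : RelFn W := by
  have h1 : PolyFn (fun c : (List Bool × List Bool) × List Bool => unbits Ins c.1.1) :=
    poly_ins.comp (PolyFn.fst.comp PolyFn.fst)
  have h2 : PolyFn (fun c : (List Bool × List Bool) × List Bool =>
      bits (((unbits Ins c.1.1).2.1, c.1.2), c.2)) :=
    poly_bits (((PolyFn.fst.comp (PolyFn.snd.comp h1)).pair (PolyFn.snd.comp PolyFn.fst)).pair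
      PolyFn.snd)
  have h3 : PolyFn (fun c : (List Bool × List Bool) × List Bool =>
      (unbits Ins c.1.1).2.2.2.2) :=
    PolyFn.snd.comp (PolyFn.snd.comp (PolyFn.snd.comp (PolyFn.snd.comp h1)))
  refine ⟨nq, qu, ou, ?_, ?_, ?_, fun _ _ => rfl⟩
  · exact PolyFn.fst.comp (PolyFn.snd.comp (PolyFn.snd.comp (poly_ins.comp PolyFn.fst)))
  · exact poly_runT (PolyFn.fst.comp (PolyFn.fst.comp h1)) h2 h3
  · refine PolyFn.and (PolyFn.decide_le (PolyFn.length (PolyFn.snd.comp PolyFn.fst)) ?_) ?_
    · exact PolyFn.fst.comp (PolyFn.snd.comp (PolyFn.snd.comp (PolyFn.snd.comp h1)))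
    · exact PolyFn.headD (poly_runT (PolyFn.snd.comp (PolyFn.fst.comp h1)) h2 h3)
        (PolyFn.const false)

open Classical in
/-- the complete language -/
noncomputable def UG (G : List Bool → Bool) : DecisionProblem := fun z =>
  decide (¬ ∃ u : List Bool, u.length ≤ z.length ∧ W G (z, u) = true)

open Classical in
theorem UG_iff (G : List Bool → Bool) (z : List Bool) : UG G z = true ↔
    ¬ ∃ u : List Bool, u.length ≤ z.length ∧ W G (z, u) = true := by
  unfold UG
  exact decide_eq_true_iff

theorem UG_mem (G : List Bool → Bool) : UG G ∈ coNPRel G := by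
  refine ⟨Polynomial.X, W G,
    isPolyTimeRel_of_relFn (Br.list.pair Br.list) Br.bool relFn_W G, fun x => ?_⟩
  rw [Polynomial.eval_X]
  have h : (UG G)ᶜ x = !(UG G x) := rfl
  rw [h]
  unfold UG
  simp

theorem hard (G : List Bool → Bool) {A : DecisionProblem} (hA : A ∈ coNPRel G) :
    ManyOneReducibleRel G A (UG G) := by
  obtain ⟨q, V, ⟨p, Q, O, hQ, hO, hV⟩, hA⟩ := hA
  have hQF : PolyFn Q := ((Br.list.pair Br.list).pair Br.list).polyFn Br.list hQ
  have hOF : PolyFn O := ((Br.list.pair Br.list).pair Br.list).polyFn Br.bool hO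
  have hlen : PolyFn (fun y : List Bool × List Bool => (bitEncode y : List Bool).length) :=
    PolyFn.length (Br.list.pair Br.list).enc'
  obtain ⟨g, ⟨hgm, P1, hP1⟩, hg⟩ := hlen.size_le
  have hU : PolyFn (unbits ((List Bool × List Bool) × List Bool)) := poly_unbits
  -- the codes
  obtain ⟨pr1, k1, hk1⟩ := exists_code
    (f := fun w => Q (unbits ((List Bool × List Bool) × List Bool) w))
    (isPolyTime_iff.2 (hQF.comp hU))
  have hO'F : PolyFn (fun c : (List Bool × List Bool) × List Bool =>
      O (c.1, c.2.take (p.eval (bitEncode c.1 : List Bool).length))) :=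
    hOF.comp (PolyFn.fst.pair (PolyFn.take PolyFn.snd (poly_eval p (hlen.comp PolyFn.fst))))
  obtain ⟨pr2, k2, hk2⟩ := exists_code
    (f := fun w => [O ((unbits ((List Bool × List Bool) × List Bool) w).1,
      (unbits ((List Bool × List Bool) × List Bool) w).2.take
        (p.eval (bitEncode (unbits ((List Bool × List Bool) × List Bool) w).1 :
          List Bool).length))])
    (isPolyTime_iff.2 (PolyFn.cons (hO'F.comp hU) (PolyFn.const [])))
  -- the bounds
  let S : Polynomial ℕ := 4 * Polynomial.X + 4 * q + 3
  let N1 : Polynomial ℕ := p.comp (P1.comp S)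
  let S2 : Polynomial ℕ := S + 4 * N1 + 2
  let Tm : Polynomial ℕ := S2 ^ k1 + (k1 : Polynomial ℕ) + (S2 ^ k2 + (k2 : Polynomial ℕ))
  let a : List Bool → Ins := fun x =>
    ((pr1, pr2), x, N1.eval x.length, q.eval x.length, Tm.eval x.length)
  have ha : PolyFn a := by
    have hl : PolyFn (fun x : List Bool => x.length) := PolyFn.length PolyFn.id
    exact (PolyFn.const (pr1, pr2)).pair (PolyFn.id.pair ((poly_eval N1 hl).pair
      ((poly_eval q hl).pair (poly_eval Tm hl))))
  let f : List Bool → List Bool := fun x => bits (a x)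
  have hf : PolyFn f := poly_bits ha
  have hins : ∀ x, unbits Ins (f x) = a x := fun x => unbits_bits _
  have hS : ∀ x : List Bool, S.eval x.length = 4 * x.length + 4 * q.eval x.length + 3 := by
    intro x
    simp [S]
  have hsz : ∀ x u : List Bool, u.length ≤ q.eval x.length → size (x, u) ≤ S.eval x.length := by
    intro x u hu
    have h1 := Pool.Agent.Lib.MP_f0c157_lc.size_bits_le x
    have h2 := Pool.Agent.Lib.MP_f0c157_lc.size_bits_le u
    rw [hS, size_prod]
    omega
  have hN : ∀ x u : List Bool, u.length ≤ q.eval x.length →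
      p.eval (bitEncode (x, u) : List Bool).length ≤ N1.eval x.length := by
    intro x u hu
    have h1 := hg (x, u)
    rw [size_nat] at h1
    have h2 := (hgm (hsz x u hu)).trans (hP1 _)
    have h3 : N1.eval x.length = p.eval (P1.eval (S.eval x.length)) := by
      simp only [N1, Polynomial.eval_comp]
    rw [h3]
    exact poly_mono p (by omega)
  have hS2 : ∀ x : List Bool, S2.eval x.length = S.eval x.length + 4 * N1.eval x.length + 2 := by
    intro x
    simp [S2]
  have hlb : ∀ x u b : List Bool, u.length ≤ q.eval x.length → b.length ≤ N1.eval x.length →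
      (bits ((x, u), b)).length ≤ S2.eval x.length := by
    intro x u b hu hb
    have h1 := hsz x u hu
    have h2 := Pool.Agent.Lib.MP_f0c157_lc.size_bits_le b
    rw [bits_length, size_prod, hS2]
    omega
  have hTm : ∀ x : List Bool, Tm.eval x.length =
      (S2.eval x.length) ^ k1 + k1 + ((S2.eval x.length) ^ k2 + k2) := by
    intro x
    simp [Tm]
  have hT1 : ∀ x u b : List Bool, u.length ≤ q.eval x.length → b.length ≤ N1.eval x.length →
      runT pr1 (bits ((x, u), b)) (Tm.eval x.length) = Q ((x, u), b) := by
    intro x u b hu hb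
    rw [hk1 _ _ (by
      have h1 := Nat.pow_le_pow_left (hlb x u b hu hb) k1
      rw [hTm]
      omega), unbits_bits]
  have hT2 : ∀ x u b : List Bool, u.length ≤ q.eval x.length → b.length ≤ N1.eval x.length →
      runT pr2 (bits ((x, u), b)) (Tm.eval x.length) =
        [O ((x, u), b.take (p.eval (bitEncode (x, u) : List Bool).length))] := by
    intro x u b hu hb
    rw [hk2 _ _ (by
      have h1 := Nat.pow_le_pow_left (hlb x u b hu hb) k2
      rw [hTm]
      omega), unbits_bits]
  -- the answers
  have hans : ∀ x u : List Bool, u.length ≤ q.eval x.length → ∀ j ≤ N1.eval x.length,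
      answers qu G (f x, u) j = answers Q G (x, u) j := by
    intro x u hu j
    induction j with
    | zero => intro _; rfl
    | succ j ih =>
      intro hj
      have h1 := ih (by omega)
      have h2 : qu ((f x, u), answers Q G (x, u) j) = Q ((x, u), answers Q G (x, u) j) := by
        unfold qu
        rw [hins]
        exact hT1 x u _ hu (by rw [rel_answers_length]; omega)
      rw [answers, answers, h1, h2]
  have hW1 : ∀ x u : List Bool, u.length ≤ q.eval x.length → W G (f x, u) = V (x, u) := by
    intro x u hu
    have h1 : nq (f x, u) = N1.eval x.length := by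
      unfold nq
      rw [hins]
    unfold W
    rw [h1, hans x u hu _ le_rfl]
    unfold ou
    rw [hins]
    have h2 := hT2 x u (answers Q G (x, u) (N1.eval x.length)) hu
      (by rw [rel_answers_length])
    show (decide (u.length ≤ q.eval x.length) && (runT pr2 (bits ((x, u),
      answers Q G (x, u) (N1.eval x.length))) (Tm.eval x.length)).headD false) = _
    rw [h2, rel_answers_take Q G (x, u) (hN x u hu), decide_eq_true hu, hV]
    rfl
  have hW2 : ∀ x u : List Bool, ¬ u.length ≤ q.eval x.length → W G (f x, u) = false := by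
    intro x u hu
    unfold W ou
    rw [hins]
    show (decide (u.length ≤ q.eval x.length) && _) = _
    rw [decide_eq_false hu, Bool.false_and]
  have hlf : ∀ x : List Bool, q.eval x.length ≤ (f x).length := by
    intro x
    have h1 : (f x).length = size (a x) := bits_length _
    rw [h1]
    show _ ≤ size (((pr1, pr2), x, N1.eval x.length, q.eval x.length, Tm.eval x.length) : Ins)
    simp only [size_prod, size_nat]
    omega
  refine ⟨f, isPolyTimeRel_of_relFn Br.list Br.list (relConst _ _ _ hf) G, fun x => ?_⟩
  have h1 := hA x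
  have h2 : (A)ᶜ x = !(A x) := rfl
  rw [h2] at h1
  rw [Bool.eq_iff_iff, UG_iff]
  constructor
  · rintro h ⟨u, -, hu⟩
    have h3 : u.length ≤ q.eval x.length := by
      by_contra hcon
      rw [hW2 x u hcon] at hu
      exact Bool.false_ne_true hu
    rw [hW1 x u h3] at hu
    have h4 := h1.2 ⟨u, h3, hu⟩
    rw [h] at h4
    exact Bool.false_ne_true h4
  · intro h
    by_contra hcon
    have h3 : A x = false := by simpa using hcon
    obtain ⟨u, hu, huV⟩ := h1.1 (by rw [h3]; rfl)
    exact h ⟨u, hu.trans (hlf x), by rw [hW1 x u hu]; exact huV⟩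

end CM

open CM

/-- for every oracle the class coNP relative to it has a complete language -/
theorem cmp : ∀ G : List Bool → Bool, ∃ U ∈ coNPRel G, (∃ x, U x = true) ∧
    ∀ A ∈ coNPRel G, ManyOneReducibleRel G A U := by
  intro G
  refine ⟨UG G, UG_mem G, ?_, fun A hA => hard G hA⟩
  have h1 : (fun _ => true : DecisionProblem) ∈ coNPRel G := by
    refine ⟨0, fun _ => false, ?_, fun x => ?_⟩
    · exact isPolyTimeRel_of_relFn (Br.list.pair Br.list) Br.bool
        (relConst _ _ _ (PolyFn.const false)) G
    · simp
  obtain ⟨f, -, hf⟩ := hard G h1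
  exact ⟨f [], (hf []).symm⟩

end Pool.Agent.Lib.MP_f0c157_lc.GEN
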