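import Pool.Agent.Lib.RO.Run
import Pool.Agent.Lib.RO.Rel
import Pool.Agent.Lib.RO.RelClosure

/-!
# Project GEN (MP_f0c157_lc): p-optimal proof systems relative to generic oracles

Main theorem: for comeager many oracles `G`, the complete languages of `coNP` relative to `G` have
p-optimal proof systems relative to `G` if and only if `TAUT` (any `coNP`-complete language) has a
p-optimal proof system.

Rows (file `GEN/Xyz.lean`, namespace `Pool.Agent.Lib.MP_f0c157_lc.GEN`, theorem `xyz`):
* `TOP` : `Loc_stmt`, `Closed_stmt`, `Avoid_stmt`, `Protos_stmt` (theorems `loc`, `closed`, `avoid`,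
  `protos`);
* `PPO` : `PolyPO_stmt` (theorem `polyPO`, as `RO.PolyOrc.polyOrc`), `RelExt_stmt` (`relExt`);
* `HAT` : `Hat_stmt` (from `PPO`);
* `DOWN` : `Down_stmt`, `DownRel_stmt`;
* `FWD`, `BWD`, `ASM`.
-/

set_option autoImplicit false

namespace Pool.Agent.Lib.MP_f0c157_lc.GEN

open Pool.Agent.PolyTime Pool.Agent.Lib.MP_d5150c_lc Pool.Agent.Lib.MP_f0c157_lc
open Pool.Agent.Lib.RO N487b59b3 N68a2faeb N793a5b8e

/-- `P` is a p-optimal proof system for `L` relative to the oracle `R`. -/
def IsPOptimalProofSystemRel (R : List Bool → Bool) (L : DecisionProblem)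
    (P : List Bool → List Bool) : Prop :=
  IsProofSystemRel R L P ∧ ∀ Q, IsProofSystemRel R L Q →
    ∃ h : List Bool → List Bool, IsPolyTimeRel R h ∧ ∀ π, P (h π) = Q π

/-- finite partial oracles -/
abbrev PO : Type := List (List Bool × Bool)

/-- the oracle `X` extends the partial oracle `q` -/
def Ext (q : PO) (X : List Bool → Bool) : Prop := ∀ e ∈ q, X e.1 = e.2

/-- the same as a Boolean function -/
def extB (X : List Bool → Bool) (q : PO) : Bool := q.all fun e => decide (X e.1 = e.2)

/-- the oracle given by the positive entries of a partial oracle -/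
def ofPO (q : PO) : List Bool → Bool := fun v => q.any fun e => decide (e.1 = v) && e.2

/-- the restriction of an oracle to a list of strings -/
def restr (X : List Bool → Bool) (l : List (List Bool)) : PO := l.map fun v => (v, X v)

/-- the language of the codes of the pairs `(x, q)` such that the verifier `V` rejects `x` for all
oracles which extend `q` -/
noncomputable def Hat (V : (List Bool → Bool) → List Bool × List Bool → Bool)
    (p : Polynomial ℕ) : DecisionProblem := by
  classical
  exact fun z => decide (∀ X : List Bool → Bool, Ext (unbits (List Bool × PO) z).2 X →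
    ∀ u : List Bool, u.length ≤ p.eval (unbits (List Bool × PO) z).1.length →
      V X ((unbits (List Bool × PO) z).1, u) = false)

/-! ## Statements of the rows -/

/-- TOP 1: oracle functions are locally constant (from `RO.run`) -/
def Loc_stmt : Prop := ∀ (α β : Type) [Enc α] [Enc β] (F : (List Bool → Bool) → α → β),
  RelFn F → ∀ X x, ∃ l : List (List Bool), ∀ X', (∀ v ∈ l, X' v = X v) → F X' x = F X x

/-- TOP 2: a conjunction of locally determined conditions is closed -/
def Closed_stmt : Prop := ∀ (ι : Type) (Φ : (List Bool → Bool) → ι → Prop),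
  (∀ X i, ∃ l : List (List Bool), ∀ X', (∀ v ∈ l, X' v = X v) → (Φ X' i ↔ Φ X i)) →
    IsClosed {X : List Bool → Bool | ∀ i, Φ X i}

/-- TOP 3: a comeager set of oracles avoids the boundaries of countably many closed sets -/
def Avoid_stmt : Prop := ∀ S : Set (Set (List Bool → Bool)), S.Countable → (∀ C ∈ S, IsClosed C) →
  ∀ᶠ G in residual (List Bool → Bool), ∀ C ∈ S, G ∈ C →
    ∃ l : List (List Bool), ∀ X : List Bool → Bool, (∀ v ∈ l, X v = G v) → X ∈ C

/-- PPO 1: oracle functions evaluated on finite partial oracles -/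
def PolyPO_stmt : Prop := ∀ (α β : Type) [Enc α] [Enc β] (F : (List Bool → Bool) → α → β),
  RelFn F → PolyFn (fun c : PO × α => F (ofPO c.1) c.2)

/-- PPO 2: the extension test is an oracle function, and a polynomial-time function on partial
oracles -/
def RelExt_stmt : Prop := RelFn extB ∧ PolyFn (fun c : PO × PO => extB (ofPO c.1) c.2)

/-- PPO 3: the queries of an oracle function, with the answers, as an oracle function -/
def Record_stmt : Prop := ∀ (α β : Type) [Enc α] [Enc β] (F : (List Bool → Bool) → α → β),
  RelFn F → ∃ rec : (List Bool → Bool) → α → PO, RelFn rec ∧ (∀ X x, Ext (rec X x) X) ∧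
    (∀ X X' x, Ext (rec X x) X' → F X' x = F X x) ∧
    ∃ b : ℕ → ℕ, PB b ∧ ∀ X x, size (rec X x) ≤ b (size x)

/-- HAT: the language `Hat V p` is in coNP -/
def Hat_stmt : Prop := ∀ (V : (List Bool → Bool) → List Bool × List Bool → Bool)
  (p : Polynomial ℕ), RelFn V → Hat V p ∈ coNP

/-- DOWN: p-optimal proof systems go down along many-one reductions -/
def Down_stmt : Prop := ∀ A B : DecisionProblem, ManyOneReducible A B → (∃ x, A x = true) →
  (∃ P, IsPOptimalProofSystem B P) → ∃ P, IsPOptimalProofSystem A P

def DownRel_stmt : Prop := ∀ (R : List Bool → Bool) (A B : DecisionProblem),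
  ManyOneReducibleRel R A B → (∃ x, A x = true) →
  (∃ P, IsPOptimalProofSystemRel R B P) → ∃ P, IsPOptimalProofSystemRel R A P

/-- the main theorem -/
def Main_stmt : Prop := ∀ T : DecisionProblem, IsCompleteFor coNP T →
  ∀ᶠ G in residual (List Bool → Bool),
    ((∃ P, IsPOptimalProofSystem T P) → ∀ L ∈ coNPRel G, (∃ x, L x = true) →
      ∃ P, IsPOptimalProofSystemRel G L P) ∧
    ∀ U : DecisionProblem, (∀ A ∈ coNPRel G, ManyOneReducibleRel G A U) →
      (∃ P, IsPOptimalProofSystemRel G U P) → ∃ P, IsPOptimalProofSystem T P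

end Pool.Agent.Lib.MP_f0c157_lc.GEN
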