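import Pool.Agent.Lib.MP_f0c157_lc.GEN.Defs

/-!
# Project GEN, row DOWN: p-optimal proof systems go down along many-one reductions
-/

set_option autoImplicit false

namespace Pool.Agent.Lib.MP_f0c157_lc.GEN

open Pool.Agent.PolyTime Pool.Agent.Lib.MP_d5150c_lc Pool.Agent.Lib.MP_f0c157_lc
open Pool.Agent.Lib.RO N487b59b3 N68a2faeb N793a5b8e

namespace DN

/-- the proof system for `A` obtained from a proof system `P` for `B` and a reduction `red` -/
def pa (P red : List Bool → List Bool) (x0 v : List Bool) : List Bool :=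
  if P (unbits (List Bool × List Bool) v).2 = red (unbits (List Bool × List Bool) v).1 then
    (unbits (List Bool × List Bool) v).1 else x0

/-- the proof system for `B` obtained from `P` and from a proof system `Q` for `A` -/
def qb (P Q red : List Bool → List Bool) (v : List Bool) : List Bool :=
  if v.headD false = true then P v.tail else red (Q v.tail)

theorem pa_bits (P red : List Bool → List Bool) (x0 : List Bool) (x v' : List Bool) :
    pa P red x0 (bits (x, v')) = if P v' = red x then x else x0 := by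
  unfold pa
  rw [unbits_bits]

theorem pa_sound {A B : DecisionProblem} {P red : List Bool → List Bool} {x0 : List Bool}
    (hred : ∀ x, A x = B (red x)) (hx0 : A x0 = true)
    (hP : ∀ y, B y ↔ ∃ π, P π = y) (y : List Bool) : A y ↔ ∃ π, pa P red x0 π = y := by
  constructor
  · intro hy
    have h1 : B (red y) = true := by rw [← hred]; exact hy
    obtain ⟨v', hv'⟩ := (hP _).1 h1
    exact ⟨bits (y, v'), by rw [pa_bits, if_pos hv']⟩
  · rintro ⟨π, rfl⟩
    unfold pa
    split_ifs with h
    · rw [hred, ← h]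
      exact (hP _).2 ⟨_, rfl⟩
    · exact hx0

theorem qb_sound {A B : DecisionProblem} {P Q red : List Bool → List Bool}
    (hred : ∀ x, A x = B (red x)) (hP : ∀ y, B y ↔ ∃ π, P π = y)
    (hQ : ∀ y, A y ↔ ∃ π, Q π = y) (y : List Bool) : B y ↔ ∃ π, qb P Q red π = y := by
  constructor
  · intro hy
    obtain ⟨v, hv⟩ := (hP _).1 hy
    exact ⟨true :: v, hv⟩
  · rintro ⟨π, rfl⟩
    unfold qb
    split_ifs with h
    · exact (hP _).2 ⟨_, rfl⟩
    · rw [← hred]
      exact (hQ _).2 ⟨_, rfl⟩

end DN

open DN

theorem down : Down_stmt := by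
  rintro A B ⟨red, hredP, hred⟩ ⟨x0, hx0⟩ ⟨P, ⟨hPp, hPs⟩, hopt⟩
  have hredF : PolyFn red := isPolyTime_iff.1 hredP
  have hPF : PolyFn P := isPolyTime_iff.1 hPp
  have hU : PolyFn (unbits (List Bool × List Bool)) := poly_unbits
  refine ⟨pa P red x0, ⟨?_, pa_sound hred hx0 hPs⟩, ?_⟩
  · refine isPolyTime_iff.2 ?_
    refine PolyFn.ite ?_ (PolyFn.fst.comp hU) (PolyFn.const x0)
    exact PolyFn.decide_eq (hPF.comp (PolyFn.snd.comp hU)) (hredF.comp (PolyFn.fst.comp hU))
  · rintro Q ⟨hQp, hQs⟩
    have hQF : PolyFn Q := isPolyTime_iff.1 hQp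
    have ht : PolyFn (fun v : List Bool => v.tail) := PolyFn.tail PolyFn.id
    have hqb : IsProofSystem B (qb P Q red) := by
      refine ⟨isPolyTime_iff.2 ?_, qb_sound hred hPs hQs⟩
      refine PolyFn.ite ?_ (hPF.comp ht) (hredF.comp (hQF.comp ht))
      refine (PolyFn.headD (l := fun v : List Bool => v) (d := fun _ => false) PolyFn.id
        (PolyFn.const false)).of_eq fun v => ?_
      simp
    obtain ⟨h, hhp, hh⟩ := hopt _ hqb
    have hhF : PolyFn h := isPolyTime_iff.1 hhp
    refine ⟨fun w => bits (Q w, h (false :: w)), isPolyTime_iff.2 ?_, fun w => ?_⟩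
    · exact poly_bits (hQF.pair (hhF.comp (PolyFn.cons (PolyFn.const false) PolyFn.id)))
    · rw [pa_bits, if_pos]
      rw [hh]
      rfl

theorem downRel : DownRel_stmt := by
  rintro R A B ⟨red, hredP, hred⟩ ⟨x0, hx0⟩ ⟨P, ⟨hPp, hPs⟩, hopt⟩
  obtain ⟨Fr, hFr, hFrR⟩ := exists_protos hredP
  obtain ⟨FP, hFP, hFPR⟩ := exists_protos hPp
  have hFr' : RelFn Fr := relFn_of_protos Br.list Br.list hFr
  have hFP' : RelFn FP := relFn_of_protos Br.list Br.list hFP
  have hU : PolyFn (unbits (List Bool × List Bool)) := poly_unbits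
  refine ⟨pa P red x0, ⟨?_, pa_sound hred hx0 hPs⟩, ?_⟩
  · have h1 : RelFn (fun (X : List Bool → Bool) (v : List Bool) =>
        (FP X (unbits (List Bool × List Bool) v).2, Fr X (unbits (List Bool × List Bool) v).1)) :=
      relPair _ _ _ _ _ (relComp _ _ _ _ _ hFP' (relConst _ _ _ (PolyFn.snd.comp hU)))
        (relComp _ _ _ _ _ hFr' (relConst _ _ _ (PolyFn.fst.comp hU)))
    have h2 : RelFn (fun (X : List Bool → Bool) (v : List Bool) =>
        ((FP X (unbits (List Bool × List Bool) v).2, Fr X (unbits (List Bool × List Bool) v).1),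
          (unbits (List Bool × List Bool) v).1)) :=
      relPair _ _ _ _ _ h1 (relConst _ _ _ (PolyFn.fst.comp hU))
    have h3 : PolyFn (fun c : (List Bool × List Bool) × List Bool =>
        if c.1.1 = c.1.2 then c.2 else x0) := by
      refine PolyFn.ite ?_ PolyFn.snd (PolyFn.const x0)
      exact PolyFn.decide_eq (PolyFn.fst.comp PolyFn.fst) (PolyFn.snd.comp PolyFn.fst)
    have h4 := relComp _ _ _ _ _ (relConst _ _ _ h3) h2
    have h5 := isPolyTimeRel_of_relFn Br.list Br.list h4 R
    have h6 : pa P red x0 = fun v : List Bool =>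
        if FP R (unbits (List Bool × List Bool) v).2 = Fr R (unbits (List Bool × List Bool) v).1
          then (unbits (List Bool × List Bool) v).1 else x0 := by
      rw [hFPR, hFrR]
      rfl
    rw [h6]
    exact h5
  · rintro Q ⟨hQp, hQs⟩
    obtain ⟨FQ, hFQ, hFQR⟩ := exists_protos hQp
    have hFQ' : RelFn FQ := relFn_of_protos Br.list Br.list hFQ
    have ht : PolyFn (fun v : List Bool => v.tail) := PolyFn.tail PolyFn.id
    have hhd : PolyFn (fun v : List Bool => v.headD false) :=
      PolyFn.headD (l := fun v : List Bool => v) (d := fun _ => false) PolyFn.id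
        (PolyFn.const false)
    have hqb : IsProofSystemRel R B (qb P Q red) := by
      refine ⟨?_, qb_sound hred hPs hQs⟩
      have h1 : RelFn (fun (X : List Bool → Bool) (v : List Bool) =>
          (FP X v.tail, Fr X (FQ X v.tail))) :=
        relPair _ _ _ _ _ (relComp _ _ _ _ _ hFP' (relConst _ _ _ ht))
          (relComp _ _ _ _ _ hFr' (relComp _ _ _ _ _ hFQ' (relConst _ _ _ ht)))
      have h2 : RelFn (fun (X : List Bool → Bool) (v : List Bool) =>
          ((FP X v.tail, Fr X (FQ X v.tail)), v.headD false)) :=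
        relPair _ _ _ _ _ h1 (relConst _ _ _ hhd)
      have h3 : PolyFn (fun c : (List Bool × List Bool) × Bool =>
          if c.2 = true then c.1.1 else c.1.2) := by
        refine PolyFn.ite ?_ (PolyFn.fst.comp PolyFn.fst) (PolyFn.snd.comp PolyFn.fst)
        exact (PolyFn.snd).of_eq fun v => by simp
      have h4 := relComp _ _ _ _ _ (relConst _ _ _ h3) h2
      have h5 := isPolyTimeRel_of_relFn Br.list Br.list h4 R
      have h6 : qb P Q red = fun v : List Bool =>
          if v.headD false = true then FP R v.tail else Fr R (FQ R v.tail) := by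
        rw [hFPR, hFrR, hFQR]
        rfl
      rw [h6]
      exact h5
    obtain ⟨h, hhp, hh⟩ := hopt _ hqb
    obtain ⟨Fh, hFh, hFhR⟩ := exists_protos hhp
    have hFh' : RelFn Fh := relFn_of_protos Br.list Br.list hFh
    refine ⟨fun w => bits (Q w, h (false :: w)), ?_, fun w => ?_⟩
    · have h1 : RelFn (fun (X : List Bool → Bool) (w : List Bool) =>
          (FQ X w, Fh X (false :: w))) :=
        relPair _ _ _ _ _ hFQ' (relComp _ _ _ _ _ hFh'
          (relConst _ _ _ (PolyFn.cons (PolyFn.const false) PolyFn.id)))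
      have h4 := relComp _ _ _ _ _ (relConst _ _ _ (poly_bits
        (PolyFn.id (α := List Bool × List Bool)))) h1
      have h5 := isPolyTimeRel_of_relFn Br.list Br.list h4 R
      have h6 : (fun w : List Bool => bits (Q w, h (false :: w))) =
          fun w : List Bool => bits (FQ R w, Fh R (false :: w)) := by
        rw [hFQR, hFhR]
      rw [h6]
      exact h5
    · rw [pa_bits, if_pos]
      rw [hh]
      rfl

end Pool.Agent.Lib.MP_f0c157_lc.GEN
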