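import Pool.Agent.Lib.MP_f0c157_lc.GEN.Defs
import Pool.Agent.Lib.RO.PolyOrc

/-!
# Project GEN, row PPO: oracle functions and finite partial oracles
-/

set_option autoImplicit false

namespace Pool.Agent.Lib.MP_f0c157_lc.GEN

open Pool.Agent.PolyTime Pool.Agent.Lib.MP_d5150c_lc Pool.Agent.Lib.MP_f0c157_lc
open Pool.Agent.Lib.RO N487b59b3 N68a2faeb N793a5b8e

/-- looking up a partial oracle -/
theorem poly_ofPO {γ : Type} [Enc γ] {q : γ → PO} {v : γ → List Bool} (hq : PolyFn q)
    (hv : PolyFn v) : PolyFn (fun c => ofPO (q c) (v c)) := by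
  refine (PolyFn.any (p := fun (c : γ) (e : List Bool × Bool) => decide (e.1 = v c) && e.2)
    (PolyFn.and (PolyFn.decide_eq (PolyFn.fst.comp PolyFn.snd) (hv.comp PolyFn.fst))
      (PolyFn.snd.comp PolyFn.snd)) hq).of_eq fun c => ?_
  rfl

/-- the answers of a partial oracle -/
theorem poly_answersPO {α γ : Type} [Enc α] [Enc γ] {Q : α × List Bool → List Bool}
    (hQ : PolyFn Q) {u : γ → PO} {x : γ → α} {n : γ → ℕ} (hu : PolyFn u) (hx : PolyFn x)
    (hn : PolyFn n) : PolyFn (fun c => answers Q (ofPO (u c)) (x c) (n c)) := by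
  obtain ⟨n', hn', hns⟩ := hn.size_le
  have h := PolyFn.foldl
    (step := fun (c : γ) (s : List Bool) (_ : ℕ) => s ++ [ofPO (u c) (Q (x c, s))])
    (init := fun _ => []) (l := fun c => List.range (n c)) (by
      have hs : PolyFn (fun p : γ × List Bool × ℕ => p.2.1) := PolyFn.fst.comp PolyFn.snd
      have hc : PolyFn (fun p : γ × List Bool × ℕ => p.1) := PolyFn.fst
      exact PolyFn.append hs (PolyFn.cons (poly_ofPO (hu.comp hc)
        (hQ.comp ((hx.comp hc).pair hs))) (PolyFn.const [])))
    (PolyFn.const []) (PolyFn.range hn) ⟨fun k => 4 * n' k + 1,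
      ((PB.const 4).mul hn').add (PB.const 1), fun c i hi => by
        rw [List.length_range] at hi
        rw [List.take_range, Nat.min_eq_left hi, answers_foldl]
        refine (Pool.Agent.Lib.MP_f0c157_lc.size_bits_le _).trans ?_
        rw [po_answers_length]
        have := hns c
        rw [size_nat] at this
        show 4 * i + 1 ≤ 4 * n' (size c) + 1
        omega⟩
  refine h.of_eq ?_
  intro c
  exact answers_foldl _ _ _ _

theorem polyPO : PolyPO_stmt := by
  intro α β _ _ F hF
  obtain ⟨N, Q, O, hN, hQ, hO, h⟩ := hF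
  have hx : PolyFn (fun q : PO × α => q.2) := PolyFn.snd
  refine (hO.comp (hx.pair (poly_answersPO hQ PolyFn.fst hx (hN.comp hx)))).of_eq ?_
  intro q
  exact (h (ofPO q.1) q.2).symm

theorem extB_iff {X : List Bool → Bool} {q : PO} : extB X q = true ↔ Ext q X := by
  unfold extB Ext
  simp only [List.all_eq_true, decide_eq_true_eq]

theorem extB_zip (X : List Bool → Bool) (q : PO) :
    ((q.zip ((q.map Prod.fst).map X)).all fun t => decide (t.2 = t.1.2)) = extB X q := by
  unfold extB
  induction q with
  | nil => rfl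
  | cons e q ih =>
    simp only [List.map_cons, List.zip_cons_cons, List.all_cons]
    rw [ih]

theorem relExt : RelExt_stmt := by
  constructor
  · have h1 : RelFn (fun (R : List Bool → Bool) (q : PO) => (q, (q.map Prod.fst).map R)) :=
      relPair PO PO (List Bool) (fun _ q => q) (fun R q => (q.map Prod.fst).map R)
        (relConst PO PO (fun q => q) PolyFn.id)
        (relQueries PO (fun q => q.map Prod.fst) (PolyFn.map (PolyFn.fst.comp PolyFn.snd)
          PolyFn.id))
    have hg : PolyFn (fun c : PO × List Bool =>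
        (c.1.zip c.2).all fun t => decide (t.2 = t.1.2)) :=
      PolyFn.all (p := fun (_ : PO × List Bool) (t : (List Bool × Bool) × Bool) =>
        decide (t.2 = t.1.2))
        (PolyFn.decide_eq (PolyFn.snd.comp PolyFn.snd)
          (PolyFn.snd.comp (PolyFn.fst.comp PolyFn.snd))) (PolyFn.zip PolyFn.fst PolyFn.snd)
    have h2 := relComp PO (PO × List Bool) Bool
      (fun _ c => (c.1.zip c.2).all fun t => decide (t.2 = t.1.2))
      (fun (R : List Bool → Bool) (q : PO) => (q, (q.map Prod.fst).map R))
      (relConst _ _ _ hg) h1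
    have h3 : extB = fun (R : List Bool → Bool) (q : PO) =>
        ((q, (q.map Prod.fst).map R).1.zip (q, (q.map Prod.fst).map R).2).all
          fun t => decide (t.2 = t.1.2) := by
      funext R q
      exact (extB_zip R q).symm
    rw [h3]
    exact h2
  · refine (PolyFn.all (p := fun (c : PO × PO) (e : List Bool × Bool) =>
      decide (ofPO c.1 e.1 = e.2)) ?_ PolyFn.snd).of_eq fun c => rfl
    exact PolyFn.decide_eq (poly_ofPO (PolyFn.fst.comp PolyFn.fst) (PolyFn.fst.comp PolyFn.snd))
      (PolyFn.snd.comp PolyFn.snd)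

theorem record_getD {α : Type} (Q : α × List Bool → List Bool) (R : List Bool → Bool) (x : α)
    {i n : ℕ} (h : i < n) :
    (answers Q R x n).getD i false = R (Q (x, answers Q R x i)) := by
  have h1 : (answers Q R x n).getD i false = (answers Q R x (i + 1)).getD i false := by
    rw [← rel_answers_take Q R x (i := i + 1) (j := n) h]
    rw [List.getD_eq_getElem?_getD, List.getD_eq_getElem?_getD, List.getElem?_take]
    simp
  rw [h1]
  show (answers Q R x i ++ [_]).getD i false = _
  rw [List.getD_append_right _ _ _ _ (by rw [rel_answers_length])]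
  rw [rel_answers_length]
  simp

theorem record : Record_stmt := by
  intro α β _ _ F hF
  obtain ⟨N, Q, O, hN, hQ, hO, h⟩ := hF
  have hO' : PolyFn (fun c : α × List Bool => ((List.range (N c.1)).map fun i =>
      (Q (c.1, c.2.take i), c.2.getD i false) : PO)) := by
    refine PolyFn.map (f := fun (c : α × List Bool) (i : ℕ) =>
      (Q (c.1, c.2.take i), c.2.getD i false)) ?_ (PolyFn.range (hN.comp PolyFn.fst))
    have ha : PolyFn (fun p : (α × List Bool) × ℕ => p.1.2) := PolyFn.snd.comp PolyFn.fst
    have hx : PolyFn (fun p : (α × List Bool) × ℕ => p.1.1) := PolyFn.fst.comp PolyFn.fst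
    exact (hQ.comp (hx.pair (PolyFn.take ha PolyFn.snd))).pair
      (PolyFn.getD ha PolyFn.snd (PolyFn.const false))
  have hrec : ∀ (X : List Bool → Bool) (x : α), ((List.range (N x)).map fun i =>
      (Q (x, answers Q X x i), X (Q (x, answers Q X x i))) : PO) =
      (List.range (N x)).map fun i =>
        (Q (x, (answers Q X x (N x)).take i), (answers Q X x (N x)).getD i false) := by
    intro X x
    refine List.map_congr_left ?_
    intro i hi
    rw [List.mem_range] at hi
    rw [rel_answers_take Q X x hi.le, record_getD Q X x hi]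
  refine ⟨fun X x => (List.range (N x)).map fun i =>
      (Q (x, answers Q X x i), X (Q (x, answers Q X x i))),
    ⟨N, Q, fun c => (List.range (N c.1)).map fun i =>
      (Q (c.1, c.2.take i), c.2.getD i false), hN, hQ, hO', fun X x => hrec X x⟩, ?_, ?_, ?_⟩
  · intro X x e he
    obtain ⟨i, hi, rfl⟩ := List.mem_map.1 he
    rfl
  · intro X X' x hX
    have hq : ∀ i < N x, X' (Q (x, answers Q X x i)) = X (Q (x, answers Q X x i)) := by
      intro i hi
      exact hX (Q (x, answers Q X x i), X (Q (x, answers Q X x i)))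
        (List.mem_map.2 ⟨i, List.mem_range.2 hi, rfl⟩)
    rw [h, h, Pool.Agent.Lib.RO.answers_congr hq]
  · obtain ⟨gN, hgN, hN'⟩ := hN.size_le
    obtain ⟨g, hg, hg'⟩ := hO'.size_le
    refine ⟨fun n => g (n + (4 * gN n + 1) + 1),
      hg.comp ((PB.id.add (((PB.const 4).mul hgN).add (PB.const 1))).add (PB.const 1)), ?_⟩
    intro X x
    beta_reduce
    rw [hrec]
    refine (hg' (x, answers Q X x (N x))).trans (hg.1 ?_)
    have h1 := Pool.Agent.Lib.MP_f0c157_lc.size_bits_le (answers Q X x (N x))
    rw [rel_answers_length] at h1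
    have h2 := hN' x
    rw [size_nat] at h2
    rw [size_prod]
    omega

end Pool.Agent.Lib.MP_f0c157_lc.GEN
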