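import Pool.Agent.Lib.MP_f0c157_lc.GEN.Defs

/-!
# Project GEN (MP_f0c157_lc), row TOP: locally determined conditions, closed sets of oracles and
their boundaries
-/

set_option autoImplicit false

namespace Pool.Agent.Lib.MP_f0c157_lc.GEN

open Pool.Agent.PolyTime Pool.Agent.Lib.MP_d5150c_lc Pool.Agent.Lib.MP_f0c157_lc
open Pool.Agent.Lib.RO N487b59b3 N68a2faeb N793a5b8e

theorem loc : Loc_stmt := by
  intro α β _ _ F hF X x
  obtain ⟨qs, b, -, -, -, -, h⟩ := run α β F hF
  exact ⟨qs X x, fun X' hX' => (h X X' x hX').1⟩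

/-- the cylinder of an oracle and a finite list of strings is open -/
theorem isOpen_cylL (G : List Bool → Bool) (l : List (List Bool)) :
    IsOpen {X : List Bool → Bool | ∀ v ∈ l, X v = G v} := by
  have h : {X : List Bool → Bool | ∀ v ∈ l, X v = G v} =
      ⋂ v ∈ {v | v ∈ l}, {X : List Bool → Bool | X v = G v} := by
    ext X
    simp
  rw [h]
  refine Set.Finite.isOpen_biInter (List.finite_toSet l) fun v _ => ?_
  have h2 : Continuous (fun X : List Bool → Bool => X v) := continuous_apply v
  exact (isOpen_discrete ({G v} : Set Bool)).preimage h2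

/-- an open set of oracles contains a cylinder around each of its points -/
theorem exists_cylL {U : Set (List Bool → Bool)} (hU : IsOpen U) {G : List Bool → Bool}
    (hG : G ∈ U) : ∃ l : List (List Bool), ∀ X : List Bool → Bool, (∀ v ∈ l, X v = G v) → X ∈ U := by
  obtain ⟨I, u, hu, hI⟩ := isOpen_pi_iff.1 hU G hG
  refine ⟨I.toList, fun X hX => hI ?_⟩
  intro v hv
  rw [hX v (Finset.mem_toList.2 hv)]
  exact (hu v hv).2

theorem closed : Closed_stmt := by
  intro ι Φ h
  have h1 : {X : List Bool → Bool | ∀ i, Φ X i} = ⋂ i, {X : List Bool → Bool | Φ X i} := by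
    ext X
    simp
  rw [h1]
  refine isClosed_iInter fun i => ?_
  rw [← isOpen_compl_iff, isOpen_iff_forall_mem_open]
  intro X hX
  obtain ⟨l, hl⟩ := h X i
  refine ⟨{X' : List Bool → Bool | ∀ v ∈ l, X' v = X v}, ?_, isOpen_cylL X l, fun v _ => rfl⟩
  intro X' hX' hcon
  exact hX ((hl X' hX').1 hcon)

theorem avoid : Avoid_stmt := by
  intro S hS hC
  rw [eventually_countable_ball hS]
  intro C hCS
  have h1 : IsNowhereDense (frontier C) := by
    rw [isClosed_frontier.isNowhereDense_iff]
    exact interior_frontier (hC C hCS)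
  have h2 : (frontier C)ᶜ ∈ residual (List Bool → Bool) :=
    h1.isMeagre
  filter_upwards [h2] with G hG hGC
  have h3 : G ∈ interior C := by
    by_contra hcon
    exact hG ⟨subset_closure hGC, hcon⟩
  obtain ⟨l, hl⟩ := exists_cylL isOpen_interior h3
  exact ⟨l, fun X hX => interior_subset (hl X hX)⟩

end Pool.Agent.Lib.MP_f0c157_lc.GEN
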